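import Pool.Agent.helper94.PL.Spec

set_option autoImplicit false

open Complex Metric Set Filter Topology MeasureTheory MPS
open Pool.Agent.helper16.Multibrot

noncomputable section

namespace PLY

theorem AL3 : AL3_stmt := by
  intro m hm
  set f : ℝ → ℝ := (Ico (1 : ℝ) m).indicator (fun r => 1 / r ^ 2) with hf
  have hset : MeasurableSet {x : ℂ | 1 ≤ ‖x‖ ∧ ‖x‖ < m} :=
    (measurableSet_le measurable_const measurable_norm).inter
      (measurableSet_lt measurable_norm measurable_const)
  have h1 : ∫⁻ x in {x : ℂ | 1 ≤ ‖x‖ ∧ ‖x‖ < m}, ENNReal.ofReal (1 / ‖x‖ ^ 2) =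
      ∫⁻ x : ℂ, ENNReal.ofReal (f ‖x‖) := by
    rw [← lintegral_indicator hset]
    congr 1
    funext x
    by_cases hx : 1 ≤ ‖x‖ ∧ ‖x‖ < m
    · have hx' : x ∈ {x : ℂ | 1 ≤ ‖x‖ ∧ ‖x‖ < m} := hx
      have hx2 : ‖x‖ ∈ Ico (1 : ℝ) m := hx
      rw [indicator_of_mem hx', hf, indicator_of_mem hx2]
    · have hx' : x ∉ {x : ℂ | 1 ≤ ‖x‖ ∧ ‖x‖ < m} := hx
      have hx2 : ‖x‖ ∉ Ico (1 : ℝ) m := hx
      rw [indicator_of_notMem hx', hf, indicator_of_notMem hx2, ENNReal.ofReal_zero]
  have hd : Module.finrank ℝ ℂ = 2 := Complex.finrank_real_complex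
  have h2 : ∀ y : ℝ, y ^ (Module.finrank ℝ ℂ - 1) • f y =
      (Ico (1 : ℝ) m).indicator (fun r => 1 / r) y := by
    intro y
    rw [hd, hf]
    by_cases hy : y ∈ Ico (1 : ℝ) m
    · rw [indicator_of_mem hy, indicator_of_mem hy]
      have : y ≠ 0 := by
        have := hy.1
        intro h
        rw [h] at this
        linarith
      have h21 : y ^ (2 - 1) = y := pow_one y
      rw [h21]
      simp only [smul_eq_mul]
      field_simp
    · rw [indicator_of_notMem hy, indicator_of_notMem hy, smul_zero]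
  have hcont : ContinuousOn (fun r : ℝ => 1 / r) (Icc 1 m) := by
    apply ContinuousOn.div continuousOn_const continuousOn_id
    intro r hr
    have := hr.1
    simp only [id]
    intro h
    rw [h] at this
    linarith
  have hint1 : IntegrableOn (fun r : ℝ => 1 / r) (Ico 1 m) :=
    (hcont.integrableOn_compact isCompact_Icc).mono_set Ico_subset_Icc_self
  have hint2 : Integrable ((Ico (1 : ℝ) m).indicator (fun r => 1 / r)) :=
    (integrable_indicator_iff measurableSet_Ico).2 hint1
  have hint : Integrable (fun x : ℂ => f ‖x‖) := by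
    have h3 := (integrable_fun_norm_addHaar (E := ℂ) (volume : Measure ℂ) (f := f)).2 (by
      simp only [h2]
      exact hint2.integrableOn)
    exact h3
  have hnn : 0 ≤ᵐ[volume] fun x : ℂ => f ‖x‖ := by
    apply Filter.Eventually.of_forall
    intro x
    simp only [Pi.zero_apply, hf]
    apply indicator_nonneg
    intro r _
    positivity
  rw [h1, ← ofReal_integral_eq_lintegral_ofReal hint hnn]
  congr 1
  rw [integral_fun_norm_addHaar (volume : Measure ℂ) f]
  simp only [h2]
  have h3 : ∫ y in Ioi (0 : ℝ), (Ico (1 : ℝ) m).indicator (fun r => 1 / r) y = Real.log m := by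
    rw [setIntegral_indicator measurableSet_Ico]
    have h4 : Ioi (0 : ℝ) ∩ Ico 1 m = Ico 1 m := by
      apply inter_eq_right.2
      intro r hr
      exact lt_of_lt_of_le zero_lt_one hr.1
    rw [h4, integral_Ico_eq_integral_Ioc, ← intervalIntegral.integral_of_le hm.le]
    have h5 : (0 : ℝ) ∉ uIcc 1 m := by
      rw [uIcc_of_le hm.le]
      intro h
      linarith [h.1]
    rw [integral_one_div h5]
    simp
  rw [h3, hd]
  have h6 : (volume : Measure ℂ).real (ball (0 : ℂ) 1) = Real.pi := by
    rw [Measure.real, Complex.volume_ball]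
    simp
  rw [h6]
  simp only [smul_eq_mul, nsmul_eq_mul]
  push_cast
  ring

end PLY
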