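import Pool.Agent.helper17.PL.AJC

/-! Project pl:, row aATE (helper25): sum over the blocks. -/

set_option autoImplicit false

open Complex Metric Set Filter Topology MeasureTheory
open Pool.Agent.helper98.ILF
open HY (UD T S hd UN RM)

noncomputable section

namespace PL

theorem ATE_tel (ψ : ℕ → ℝ) (hψ : Monotone ψ) (T' : ℕ) (e : ℕ → ℕ) :
    ∀ A : Finset ℕ, (∀ j ∈ A, T' ≤ j ∧ j < e j) → (∀ j ∈ A, ∀ j' ∈ A, j < j' → e j ≤ j') →
      ∀ t' : ℕ, T' ≤ t' → (∀ j ∈ A, e j + 1 ≤ t') → ∑ j ∈ A, (ψ (e j + 1) - ψ (j + 1)) ≤ ψ t' - ψ T' := by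
  intro A
  induction A using Finset.induction_on_max with
  | empty =>
    intro _ _ t' ht' _
    simp only [Finset.sum_empty]
    linarith [hψ ht']
  | insert a s hs ih =>
    intro h1 h2 t' ht' h3
    have ha : a ∉ s := fun h => lt_irrefl _ (hs a h)
    rw [Finset.sum_insert ha]
    have ha1 := h1 a (Finset.mem_insert_self _ _)
    have i1 := ih (fun j hj => h1 j (Finset.mem_insert_of_mem hj))
      (fun j hj j' hj' => h2 j (Finset.mem_insert_of_mem hj) j' (Finset.mem_insert_of_mem hj')) (a + 1) (by omega)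
      (fun j hj => by
        have := h2 j (Finset.mem_insert_of_mem hj) a (Finset.mem_insert_self _ _) (hs j hj)
        omega)
    have i2 : ψ (e a + 1) ≤ ψ t' := hψ (h3 a (Finset.mem_insert_self _ _))
    linarith

theorem ATE : ATE_stmt := by
  classical
  intro t T' c B N ι hN hT hc hB1 hB2 hB3 hB4 hι hout hin
  have hanti : Antitone c := antitone_nat_of_succ_le fun v => (hc v).2
  have hpos : ∀ v, 0 < c v := fun v => (hc v).1
  set ψ : ℕ → ℝ := fun v => -Real.log (c v) with hψd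
  have hψ : Monotone ψ := by
    intro a b hab
    simp only [hψd]
    have := Real.log_le_log (hpos b) (hanti hab)
    linarith
  have hlog : ∀ a b : ℕ, Real.log (c a / c b) = ψ b - ψ a := by
    intro a b
    rw [Real.log_div (hpos a).ne' (hpos b).ne']
    simp only [hψd]
    ring
  rw [hlog]
  set Δ : ℝ := ψ t - ψ T' with hΔ
  have hΔ0 : 0 ≤ Δ := by
    have := hψ hT
    simp only [hΔ]
    linarith
  set ιo : Finset ℕ := ι.filter (fun v => ∀ j, ¬ B j v) with hιo
  set ιi : Finset ℕ := ι.filter (fun v => ¬ ∀ j, ¬ B j v) with hιi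
  have hsplit : ι.card = ιo.card + ιi.card := (Finset.card_filter_add_card_filter_not (s := ι) (fun v => ∀ j, ¬ B j v)).symm
  have ho : (ιo.card : ℝ) ≤ N * (1 + Δ) := by
    have := hout ιo (Finset.filter_subset _ _) (fun v hv => (Finset.mem_filter.1 hv).2)
    rwa [hlog] at this
  have hex : ∀ v : ℕ, ∃ j, v ∈ ιi → B j v := by
    intro v
    by_cases hv : v ∈ ιi
    · have := (Finset.mem_filter.1 hv).2
      push Not at this
      obtain ⟨j, hj⟩ := this
      exact ⟨j, fun _ => hj⟩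
    · exact ⟨0, fun h => absurd h hv⟩
  choose jj hjj using hex
  set A : Finset ℕ := ιi.image jj with hA
  have hAw : ∀ j ∈ A, ∃ v, v ∈ ιi ∧ B j v := by
    intro j hj
    obtain ⟨v, hv, rfl⟩ := Finset.mem_image.1 hj
    exact ⟨v, hv, hjj v hv⟩
  have hex2 : ∀ j : ℕ, ∃ v, j ∈ A → (j < v ∧ B j v ∧ ¬ B j (v + 1)) := by
    intro j
    by_cases hj : j ∈ A
    · obtain ⟨w, hw, hBw⟩ := hAw j hj
      have h1 : B j (j + 1) := hB3 j (j + 1) w hBw (by omega) (hB1 j w hBw).1
      obtain ⟨v, hv⟩ := AJC_last t j (B j) h1 (fun v hv => (hB1 j v hv).2)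
      exact ⟨v, fun _ => hv⟩
    · exact ⟨0, fun h => absurd h hj⟩
  choose e he using hex2
  have hle : ∀ j ∈ A, ∀ v, B j v → v ≤ e j := by
    intro j hj v hv
    by_contra hcon
    push Not at hcon
    obtain ⟨a1, a2, a3⟩ := he j hj
    exact a3 (hB3 j (e j + 1) v hv (by omega) hcon)
  have hlt : ∀ j ∈ A, e j + 1 ≤ t := fun j hj => (hB1 j (e j) (he j hj).2.1).2
  set u₀ : ℕ → ℕ := fun j => max (j + 1) (T' + 1) with hu₀
  have hBu : ∀ j ∈ A, B j (u₀ j) ∧ u₀ j ≤ e j := by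
    intro j hj
    obtain ⟨w, hw, hBw⟩ := hAw j hj
    have h1 := (hB1 j w hBw).1
    have h2 := (hι w (Finset.mem_filter.1 hw).1).1
    have h3 : u₀ j ≤ w := by simp only [hu₀]; omega
    have h4 : j < u₀ j := by simp only [hu₀]; omega
    exact ⟨hB3 j (u₀ j) w hBw h4 h3, h3.trans (hle j hj w hBw)⟩
  have hcard : ∀ j ∈ A, ((ιi.filter (fun v => jj v = j)).card : ℝ) ≤ N * (1 + (ψ (e j) - ψ (u₀ j))) := by
    intro j hj
    have h1 := hin (ιi.filter (fun v => jj v = j)) ((Finset.filter_subset _ _).trans (Finset.filter_subset _ _)) j (u₀ j) (e j)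
      (hBu j hj).1 (he j hj).2.1 (hBu j hj).2 (by
        intro v hv
        obtain ⟨hv1, hv2⟩ := Finset.mem_filter.1 hv
        have hBv : B j v := by rw [← hv2]; exact hjj v hv1
        refine ⟨hBv, ?_, hle j hj v hBv⟩
        have h1 := (hB1 j v hBv).1
        have h2 := (hι v (Finset.mem_filter.1 hv1).1).1
        simp only [hu₀]
        omega)
    rwa [hlog] at h1
  have hsum : (ιi.card : ℝ) = ∑ j ∈ A, ((ιi.filter (fun v => jj v = j)).card : ℝ) := by
    rw [hA]
    exact_mod_cast Finset.card_eq_sum_card_image jj ιi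
  have hsum2 : (ιi.card : ℝ) ≤ ∑ j ∈ A, N * (1 + (ψ (e j) - ψ (u₀ j))) := by
    rw [hsum]
    exact Finset.sum_le_sum hcard
  have hAsplit : ∑ j ∈ A, N * (1 + (ψ (e j) - ψ (u₀ j))) =
      ∑ j ∈ A.filter (fun j => j < T'), N * (1 + (ψ (e j) - ψ (u₀ j))) + ∑ j ∈ A.filter (fun j => ¬ j < T'), N * (1 + (ψ (e j) - ψ (u₀ j))) :=
    (Finset.sum_filter_add_sum_filter_not A (fun j => j < T') _).symm
  have h1 : ∑ j ∈ A.filter (fun j => j < T'), N * (1 + (ψ (e j) - ψ (u₀ j))) ≤ N * (1 + Δ) := by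
    have hc1 : (A.filter (fun j => j < T')).card ≤ 1 := by
      rw [Finset.card_le_one]
      intro a ha b hb
      obtain ⟨ha1, ha2⟩ := Finset.mem_filter.1 ha
      obtain ⟨hb1, hb2⟩ := Finset.mem_filter.1 hb
      have e1 : u₀ a = T' + 1 := by simp only [hu₀]; omega
      have e2 : u₀ b = T' + 1 := by simp only [hu₀]; omega
      have k1 := (hBu a ha1).1
      have k2 := (hBu b hb1).1
      rw [e1] at k1
      rw [e2] at k2
      exact hB2 a b _ k1 k2
    have hb : ∀ j ∈ A.filter (fun j => j < T'), N * (1 + (ψ (e j) - ψ (u₀ j))) ≤ N * (1 + Δ) := by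
      intro j hj
      obtain ⟨hj1, hj2⟩ := Finset.mem_filter.1 hj
      have k1 : ψ (e j) ≤ ψ t := hψ (by have := hlt j hj1; omega)
      have k2 : ψ T' ≤ ψ (u₀ j) := hψ (by simp only [hu₀]; omega)
      exact mul_le_mul_of_nonneg_left (by simp only [hΔ]; linarith) hN
    have h2 := Finset.sum_le_card_nsmul _ _ _ hb
    refine h2.trans ?_
    rw [nsmul_eq_mul]
    have h3 : ((A.filter (fun j => j < T')).card : ℝ) ≤ 1 := by exact_mod_cast hc1
    have h4 : 0 ≤ N * (1 + Δ) := mul_nonneg hN (by linarith)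
    nlinarith
  have hlog4 : (1 : ℝ) ≤ Real.log 4 := by
    have h10 : Real.log 4 = 2 * Real.log 2 := by
      rw [show (4 : ℝ) = 2 ^ 2 by norm_num, Real.log_pow]; norm_num
    rw [h10]
    have := Real.log_two_gt_d9
    linarith
  have h2 : ∑ j ∈ A.filter (fun j => ¬ j < T'), N * (1 + (ψ (e j) - ψ (u₀ j))) ≤ 2 * N * Δ := by
    have hb : ∀ j ∈ A.filter (fun j => ¬ j < T'), N * (1 + (ψ (e j) - ψ (u₀ j))) ≤ 2 * N * (ψ (e j + 1) - ψ (j + 1)) := by
      intro j hj
      obtain ⟨hj1, hj2⟩ := Finset.mem_filter.1 hj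
      have e1 : u₀ j = j + 1 := by simp only [hu₀]; omega
      rw [e1]
      obtain ⟨a1, a2, a3⟩ := he j hj1
      have k1 := hB4 j (e j) a2 a3
      have k2 : 1 ≤ ψ (e j + 1) - ψ (j + 1) := by
        rw [← hlog]
        refine hlog4.trans (Real.log_le_log (by norm_num) ?_)
        rw [le_div_iff₀ (hpos _)]
        exact k1
      have k3 : ψ (e j) ≤ ψ (e j + 1) := hψ (by omega)
      have k4 : 1 + (ψ (e j) - ψ (j + 1)) ≤ 2 * (ψ (e j + 1) - ψ (j + 1)) := by linarith
      calc N * (1 + (ψ (e j) - ψ (j + 1))) ≤ N * (2 * (ψ (e j + 1) - ψ (j + 1))) := mul_le_mul_of_nonneg_left k4 hN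
        _ = 2 * N * (ψ (e j + 1) - ψ (j + 1)) := by ring
    refine (Finset.sum_le_sum hb).trans ?_
    rw [← Finset.mul_sum]
    refine mul_le_mul_of_nonneg_left ?_ (by positivity)
    refine ATE_tel ψ hψ T' e _ ?_ ?_ t hT ?_
    · intro j hj
      obtain ⟨hj1, hj2⟩ := Finset.mem_filter.1 hj
      exact ⟨by omega, (he j hj1).1⟩
    · intro j hj j' hj' hlt'
      obtain ⟨hj1, hj2⟩ := Finset.mem_filter.1 hj
      obtain ⟨hj1', hj2'⟩ := Finset.mem_filter.1 hj'
      by_contra hcon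
      push Not at hcon
      have e1 : u₀ j' = j' + 1 := by simp only [hu₀]; omega
      have k1 := (hBu j' hj1').1
      rw [e1] at k1
      have k2 : B j (j' + 1) := hB3 j (j' + 1) (e j) (he j hj1).2.1 (by omega) (by omega)
      have := hB2 j j' _ k2 k1
      omega
    · intro j hj
      exact hlt j (Finset.mem_filter.1 hj).1
  have h3 : (ι.card : ℝ) = (ιo.card : ℝ) + (ιi.card : ℝ) := by rw [hsplit]; push_cast; ring
  rw [h3]
  have h4 : (ιi.card : ℝ) ≤ N * (1 + Δ) + 2 * N * Δ := by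
    refine hsum2.trans ?_
    rw [hAsplit]
    exact add_le_add h1 h2
  have h5 : 0 ≤ N * Δ := mul_nonneg hN hΔ0
  nlinarith

end PL
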